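import Mathlib

/-!
# Pointwise Schur lemma

A symmetric bilinear map `B` (a second fundamental form) on a space `T` of dimension at least
three whose curvature `Sc u η` depends only on `u` for unit vectors `η ⊥ u` has constant curvature.
-/

set_option autoImplicit false

open scoped InnerProductSpace

namespace Pool.Agent.H27.S7

variable {E : Type*} [NormedAddCommGroup E] [InnerProductSpace ℝ E] [FiniteDimensional ℝ E]

/-- A unit vector of `T` orthogonal to two given vectors. -/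
theorem exists_perp {T : Submodule ℝ E} (hT : 3 ≤ Module.finrank ℝ T) (u u' : E) :
    ∃ z ∈ T, ⟪z, z⟫_ℝ = 1 ∧ ⟪u, z⟫_ℝ = 0 ∧ ⟪u', z⟫_ℝ = 0 := by
  classical
  set L : Submodule ℝ E := Submodule.span ℝ (({u, u'} : Finset E) : Set E) with hL
  have hu : u ∈ L := Submodule.subset_span (by simp)
  have hu' : u' ∈ L := Submodule.subset_span (by simp)
  have h1 : 1 ≤ Module.finrank ℝ (T ⊓ Lᗮ : Submodule ℝ E) := by
    have h2 := Submodule.finrank_add_finrank_orthogonal L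
    have h3 : Module.finrank ℝ L ≤ 2 :=
      (finrank_span_finset_le_card ({u, u'} : Finset E)).trans Finset.card_le_two
    have h4 := Submodule.finrank_sup_add_finrank_inf_eq T Lᗮ
    have h5 : Module.finrank ℝ (T ⊔ Lᗮ : Submodule ℝ E) ≤ Module.finrank ℝ E :=
      Submodule.finrank_le _
    omega
  have h6 : Nontrivial (T ⊓ Lᗮ : Submodule ℝ E) :=
    (Module.finrank_pos_iff (R := ℝ)).1 h1
  obtain ⟨⟨z, hz⟩, hz0⟩ := exists_ne (0 : (T ⊓ Lᗮ : Submodule ℝ E))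
  have hz1 : z ≠ 0 := fun h => hz0 (Subtype.ext h)
  have hn : ‖z‖ ≠ 0 := norm_ne_zero_iff.2 hz1
  have ho := (Submodule.mem_orthogonal L z).1 hz.2
  refine ⟨‖z‖⁻¹ • z, T.smul_mem _ hz.1, ?_, ?_, ?_⟩
  · rw [real_inner_smul_left, real_inner_smul_right, real_inner_self_eq_norm_sq]
    field_simp
  · rw [real_inner_smul_right, ho u hu, mul_zero]
  · rw [real_inner_smul_right, ho u' hu', mul_zero]

/-- The sectional curvature of `B`. -/
noncomputable def Sc (B : E → E → E) (u v : E) : ℝ := ⟪B u u, B v v⟫_ℝ - ⟪B u v, B u v⟫_ℝ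

theorem sc_const {T : Submodule ℝ E} (hT : 3 ≤ Module.finrank ℝ T) {B : E → E → E}
    (hadd : ∀ a a' b, B (a + a') b = B a b + B a' b)
    (hsmul : ∀ (c : ℝ) (a b : E), B (c • a) b = c • B a b) (hsymm : ∀ a b, B a b = B b a)
    (h : ∀ u ∈ T, ‖u‖ = 1 → ∀ η₁ ∈ T, ∀ η₂ ∈ T, ⟪u, η₁⟫_ℝ = 0 → ⟪u, η₂⟫_ℝ = 0 →
      Sc B u η₁ * ‖η₂‖ ^ 2 = Sc B u η₂ * ‖η₁‖ ^ 2) :
    ∃ k : ℝ, ∀ u ∈ T, ∀ v ∈ T, ∀ v' ∈ T,
      ⟪B u u, B v v'⟫_ℝ - ⟪B u v, B u v'⟫_ℝ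
        = k * (⟪u, u⟫_ℝ * ⟪v, v'⟫_ℝ - ⟪u, v⟫_ℝ * ⟪u, v'⟫_ℝ) := by
  have hadd' : ∀ a b b', B a (b + b') = B a b + B a b' := fun a b b' => by
    rw [hsymm, hadd, hsymm b, hsymm b']
  have hsmul' : ∀ (c : ℝ) (a b : E), B a (c • b) = c • B a b := fun c a b => by
    rw [hsymm, hsmul, hsymm b]
  have hsc : ∀ u v, Sc B u v = Sc B v u := fun u v => by
    unfold Sc
    rw [hsymm v u, real_inner_comm]
  have hsc1 : ∀ (c : ℝ) (u v : E), Sc B (c • u) v = c ^ 2 * Sc B u v := fun c u v => by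
    unfold Sc
    simp only [hsmul, hsmul', real_inner_smul_left, real_inner_smul_right]
    ring
  have hsc2 : ∀ (c : ℝ) (u v : E), Sc B u (c • v) = c ^ 2 * Sc B u v := fun c u v => by
    rw [hsc, hsc1, hsc]
  have hsc3 : ∀ (c : ℝ) (u v : E), Sc B u (v + c • u) = Sc B u v := fun c u v => by
    unfold Sc
    simp only [hadd, hadd', hsmul, hsmul', inner_add_left, inner_add_right, real_inner_smul_left,
      real_inner_smul_right]
    rw [hsymm v u, real_inner_comm (B u u) (B u v)]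
    ring
  have hA : ∀ u ∈ T, ∀ η ∈ T, ∀ η' ∈ T, ⟪u, u⟫_ℝ = 1 → ⟪η, η⟫_ℝ = 1 → ⟪η', η'⟫_ℝ = 1 →
      ⟪u, η⟫_ℝ = 0 → ⟪u, η'⟫_ℝ = 0 → Sc B u η = Sc B u η' := by
    intro u hu η hη η' hη' huu hηη hηη' hu0 hu0'
    have h1 : ‖u‖ = 1 := by
      rw [real_inner_self_eq_norm_sq] at huu
      exact (sq_eq_sq₀ (norm_nonneg _) zero_le_one).1 (by rw [huu, one_pow])
    have h2 := h u hu h1 η hη η' hη' hu0 hu0'
    rw [← real_inner_self_eq_norm_sq, ← real_inner_self_eq_norm_sq, hηη, hηη', mul_one,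
      mul_one] at h2
    exact h2
  obtain ⟨e₀, he₀, he₀₀, -, -⟩ := exists_perp hT 0 0
  obtain ⟨η₀, hη₀, hη₀₀, heη, -⟩ := exists_perp hT e₀ 0
  set k := Sc B e₀ η₀ with hk
  have hC : ∀ u ∈ T, ∀ η ∈ T, ⟪u, u⟫_ℝ = 1 → ⟪η, η⟫_ℝ = 1 → ⟪u, η⟫_ℝ = 0 → Sc B u η = k := by
    intro u hu η hη huu hηη hu0
    obtain ⟨z, hz, hzz, huz, hez⟩ := exists_perp hT u e₀
    have huz' : ⟪z, u⟫_ℝ = 0 := by rw [real_inner_comm]; exact huz
    have hez' : ⟪z, e₀⟫_ℝ = 0 := by rw [real_inner_comm]; exact hez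
    rw [hA u hu η hη z hz huu hηη hzz hu0 huz, hsc u z,
      hA z hz u hu e₀ he₀ hzz huu he₀₀ huz' hez', hsc z e₀,
      hA e₀ he₀ z hz η₀ hη₀ he₀₀ hzz hη₀₀ hez heη]
  have hnorm : ∀ {u : E}, u ∈ T → u ≠ 0 → ∃ u' ∈ T, ⟪u', u'⟫_ℝ = 1 ∧ u = ‖u‖ • u' := by
    intro u hu h0
    have hn : ‖u‖ ≠ 0 := norm_ne_zero_iff.2 h0
    refine ⟨‖u‖⁻¹ • u, T.smul_mem _ hu, ?_, ?_⟩
    · rw [real_inner_smul_left, real_inner_smul_right, real_inner_self_eq_norm_sq]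
      field_simp
    · rw [smul_smul, mul_inv_cancel₀ hn, one_smul]
  have hB0 : ∀ b, B 0 b = 0 := fun b => by
    have h1 := hsmul 0 0 b
    rwa [zero_smul, zero_smul] at h1
  have hB0' : ∀ b, B b 0 = 0 := fun b => by rw [hsymm, hB0]
  -- orthogonal pairs
  have hD : ∀ u ∈ T, ∀ v ∈ T, ⟪u, v⟫_ℝ = 0 → Sc B u v = k * (⟪u, u⟫_ℝ * ⟪v, v⟫_ℝ) := by
    intro u hu v hv huv
    rcases eq_or_ne u 0 with rfl | hu0
    · unfold Sc
      simp only [hB0, inner_zero_left]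
      ring
    rcases eq_or_ne v 0 with rfl | hv0
    · unfold Sc
      simp only [hB0', inner_zero_right]
      ring
    obtain ⟨u', hu', huu', hue⟩ := hnorm hu hu0
    obtain ⟨v', hv', hvv', hve⟩ := hnorm hv hv0
    have hnu : ‖u‖ ≠ 0 := norm_ne_zero_iff.2 hu0
    have hnv : ‖v‖ ≠ 0 := norm_ne_zero_iff.2 hv0
    have huv' : ⟪u', v'⟫_ℝ = 0 := by
      rw [hue, hve, real_inner_smul_left, real_inner_smul_right] at huv
      rcases mul_eq_zero.1 huv with h1 | h1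
      · exact absurd h1 hnu
      · rcases mul_eq_zero.1 h1 with h2 | h2
        · exact absurd h2 hnv
        · exact h2
    have h3 : Sc B u v = ‖u‖ ^ 2 * (‖v‖ ^ 2 * k) := by
      rw [hue, hve, hsc1, hsc2, hC u' hu' v' hv' huu' hvv' huv', ← hue, ← hve]
    rw [h3, real_inner_self_eq_norm_sq, real_inner_self_eq_norm_sq]
    ring
  have hE : ∀ u ∈ T, ∀ v ∈ T, Sc B u v = k * (⟪u, u⟫_ℝ * ⟪v, v⟫_ℝ - ⟪u, v⟫_ℝ * ⟪u, v⟫_ℝ) := by
    intro u hu v hv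
    rcases eq_or_ne u 0 with rfl | hu0
    · unfold Sc
      simp only [hB0, inner_zero_left]
      ring
    have huu : ⟪u, u⟫_ℝ ≠ 0 := fun h0 => hu0 (inner_self_eq_zero.1 h0)
    set c : ℝ := ⟪u, v⟫_ℝ / ⟪u, u⟫_ℝ with hc
    have hcu : c * ⟪u, u⟫_ℝ = ⟪u, v⟫_ℝ := by rw [hc]; field_simp
    have h1 : Sc B u v = Sc B u (v - c • u) := by
      rw [← hsc3 c u (v - c • u), sub_add_cancel]
    have h2 : ⟪u, v - c • u⟫_ℝ = 0 := by
      rw [inner_sub_right, real_inner_smul_right, hcu, sub_self]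
    rw [h1, hD u hu _ (T.sub_mem hv (T.smul_mem _ hu)) h2]
    have h3 : ⟪v - c • u, v - c • u⟫_ℝ = ⟪v, v⟫_ℝ - c * ⟪u, v⟫_ℝ := by
      have h4 : ⟪v - c • u, v - c • u⟫_ℝ = ⟪v, v - c • u⟫_ℝ := by
        rw [inner_sub_left, real_inner_smul_left, h2, mul_zero, sub_zero]
      rw [h4, inner_sub_right, real_inner_smul_right, real_inner_comm u v]
    rw [h3]
    have h5 : ⟪u, u⟫_ℝ * (⟪v, v⟫_ℝ - c * ⟪u, v⟫_ℝ)
        = ⟪u, u⟫_ℝ * ⟪v, v⟫_ℝ - c * ⟪u, u⟫_ℝ * ⟪u, v⟫_ℝ := by ring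
    rw [h5, hcu]
  refine ⟨k, fun u hu v hv v' hv' => ?_⟩
  have h1 := hE u hu v hv
  have h2 := hE u hu v' hv'
  have h3 := hE u hu (v + v') (T.add_mem hv hv')
  unfold Sc at h1 h2 h3
  simp only [hadd, hadd', inner_add_left, inner_add_right] at h3
  rw [hsymm v' v, real_inner_comm (B u v) (B u v'), real_inner_comm v v'] at h3
  linarith

end Pool.Agent.H27.S7
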