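import Pool.Agent.H59.Zar.UT

/-!
# The second fundamental form in a local equation; Codazzi

`IIf f y a b` is the second fundamental form of the level sets of `f` at `y`, `Pf f y` the
orthogonal projection onto the tangent space, `Nf f a b y` the second fundamental form of the
projections of the constant vectors `a`, `b`.
-/

set_option autoImplicit false
set_option linter.unusedSectionVars false

open scoped InnerProductSpace Topology ContDiff
open Set Filter

namespace Pool.Agent.H27.S7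

open Pool.Agent.H91.GE Pool.Agent.H59.LV Pool.Agent.H59.ND Pool.Agent.H59.Zar

variable {E F : Type*} [NormedAddCommGroup E] [InnerProductSpace ℝ E] [FiniteDimensional ℝ E]
  [NormedAddCommGroup F] [InnerProductSpace ℝ F] [FiniteDimensional ℝ F]
  {S O : Set E} {f : E → F} {x : E}

/-- The second fundamental form in a local equation. -/
noncomputable def IIf (f : E → F) (y a b : E) : E :=
  -(Rinv (fderiv ℝ f y) (fderiv ℝ (fderiv ℝ f) y a b))

/-- The orthogonal projection onto the tangent space. -/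
noncomputable def Pf (f : E → F) (a y : E) : E :=
  a - Rinv (fderiv ℝ f y) (fderiv ℝ f y a)

/-- The second fundamental form of projected constant vectors. -/
noncomputable def Nf (f : E → F) (a b y : E) : E := IIf f y (Pf f a y) (Pf f b y)

theorem IIf_add_left (y a a' b : E) : IIf f y (a + a') b = IIf f y a b + IIf f y a' b := by
  simp only [IIf, map_add, ContinuousLinearMap.add_apply]
  abel

theorem IIf_smul_left (y : E) (c : ℝ) (a b : E) : IIf f y (c • a) b = c • IIf f y a b := by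
  simp only [IIf, map_smul, ContinuousLinearMap.smul_apply, smul_neg]

theorem IIf_add_right (y a b b' : E) : IIf f y a (b + b') = IIf f y a b + IIf f y a b' := by
  simp only [IIf, map_add]
  abel

theorem IIf_smul_right (y : E) (c : ℝ) (a b : E) : IIf f y a (c • b) = c • IIf f y a b := by
  simp only [IIf, map_smul, smul_neg]

theorem IIf_symm (hf : IsLoc S O f) {y : E} (hy : y ∈ O) (a b : E) :
    IIf f y a b = IIf f y b a := by
  have hsym : IsSymmSndFDerivAt ℝ f y :=
    (hf.contDiffAt hy).isSymmSndFDerivAt (by simpa using two_le_top')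
  unfold IIf
  rw [hsym.eq a b]

theorem inner_IIf {y a b e : E} (he : fderiv ℝ f y e = 0) : ⟪IIf f y a b, e⟫_ℝ = 0 := by
  unfold IIf
  rw [inner_neg_left, inner_Rinv _ he, neg_zero]

theorem map_IIf (hf : IsLoc S O f) {y : E} (hy : y ∈ O) (a b : E) :
    fderiv ℝ f y (IIf f y a b) = -(fderiv ℝ (fderiv ℝ f) y a b) := by
  unfold IIf
  rw [map_neg, comp_Rinv (hf.surj y hy)]

theorem map_Pf (hf : IsLoc S O f) {y : E} (hy : y ∈ O) (a : E) :
    fderiv ℝ f y (Pf f a y) = 0 := by
  unfold Pf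
  rw [map_sub, comp_Rinv (hf.surj y hy), sub_self]

theorem Pf_eq {y a : E} (ha : fderiv ℝ f y a = 0) : Pf f a y = a := by
  unfold Pf
  rw [ha, map_zero, sub_zero]

/-! ### Smoothness -/

theorem smooth_df (hf : IsLoc S O f) (hx : x ∈ O) : ContDiffAt ℝ ∞ (fderiv ℝ f) x :=
  (hf.contDiffAt hx).fderiv_right (by norm_num)

theorem smooth_ddf (hf : IsLoc S O f) (hx : x ∈ O) :
    ContDiffAt ℝ ∞ (fderiv ℝ (fderiv ℝ f)) x :=
  (smooth_df hf hx).fderiv_right (by norm_num)

theorem smooth_R (hf : IsLoc S O f) (hx : x ∈ O) :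
    ContDiffAt ℝ ∞ (fun y => Rinv (fderiv ℝ f y)) x :=
  ContDiffAt.comp x (g := Rinv) (contDiffAt_Rinv (hf.surj x hx)) (smooth_df hf hx)

theorem smooth_Pf (hf : IsLoc S O f) (hx : x ∈ O) (a : E) : ContDiffAt ℝ ∞ (Pf f a) x :=
  contDiffAt_const.sub ((smooth_R hf hx).clm_apply
    ((smooth_df hf hx).clm_apply contDiffAt_const))

theorem smooth_Nf (hf : IsLoc S O f) (hx : x ∈ O) (a b : E) : ContDiffAt ℝ ∞ (Nf f a b) x :=
  ((smooth_R hf hx).clm_apply
    (((smooth_ddf hf hx).clm_apply (smooth_Pf hf hx a)).clm_apply (smooth_Pf hf hx b))).neg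

theorem hasF_df (hf : IsLoc S O f) (hx : x ∈ O) :
    HasFDerivAt (fderiv ℝ f) (fderiv ℝ (fderiv ℝ f) x) x :=
  ((smooth_df hf hx).differentiableAt (by simp)).hasFDerivAt

theorem hasF_ddf (hf : IsLoc S O f) (hx : x ∈ O) :
    HasFDerivAt (fderiv ℝ (fderiv ℝ f)) (fderiv ℝ (fderiv ℝ (fderiv ℝ f)) x) x :=
  ((smooth_ddf hf hx).differentiableAt (by simp)).hasFDerivAt

theorem hasF_Pf (hf : IsLoc S O f) (hx : x ∈ O) (a : E) :
    HasFDerivAt (Pf f a) (fderiv ℝ (Pf f a) x) x :=
  ((smooth_Pf hf hx a).differentiableAt (by simp)).hasFDerivAt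

theorem hasF_Nf (hf : IsLoc S O f) (hx : x ∈ O) (a b : E) :
    HasFDerivAt (Nf f a b) (fderiv ℝ (Nf f a b) x) x :=
  ((smooth_Nf hf hx a b).differentiableAt (by simp)).hasFDerivAt

/-! ### Derivatives at `x` -/

/-- The derivative of a projected constant vector, tangent at `x`. -/
theorem dPf (hf : IsLoc S O f) (hx : x ∈ O) {a : E} (ha : fderiv ℝ f x a = 0) (e : E) :
    fderiv ℝ (Pf f a) x e = IIf f x e a := by
  have hR : HasFDerivAt (fun y => Rinv (fderiv ℝ f y))
      (fderiv ℝ (fun y => Rinv (fderiv ℝ f y)) x) x :=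
    ((smooth_R hf hx).differentiableAt (by simp)).hasFDerivAt
  have h1 := (hasF_df hf hx).clm_apply (hasFDerivAt_const a x)
  have h2 := (hR.clm_apply h1).const_sub a
  have h3 : HasFDerivAt (Pf f a) _ x := h2
  rw [h3.fderiv]
  simp only [ContinuousLinearMap.neg_apply, ContinuousLinearMap.add_apply,
    ContinuousLinearMap.comp_apply, ContinuousLinearMap.flip_apply,
    ContinuousLinearMap.zero_apply, map_zero, ha, zero_add, add_zero]
  rfl

theorem third_symm (hf : IsLoc S O f) (hx : x ∈ O) (e a b : E) :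
    fderiv ℝ (fderiv ℝ (fderiv ℝ f)) x e a b = fderiv ℝ (fderiv ℝ (fderiv ℝ f)) x a e b := by
  have hsym : IsSymmSndFDerivAt ℝ (fderiv ℝ f) x :=
    (smooth_df hf hx).isSymmSndFDerivAt (by simpa using two_le_top')
  rw [hsym.eq e a]

theorem third_symm' (hf : IsLoc S O f) (hx : x ∈ O) (e a b : E) :
    fderiv ℝ (fderiv ℝ (fderiv ℝ f)) x e a b = fderiv ℝ (fderiv ℝ (fderiv ℝ f)) x e b a := by
  have h1 := ((hasF_ddf hf hx).clm_apply (hasFDerivAt_const a x)).clm_apply
    (hasFDerivAt_const b x)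
  have h2 := ((hasF_ddf hf hx).clm_apply (hasFDerivAt_const b x)).clm_apply
    (hasFDerivAt_const a x)
  have h3 : (fun y => fderiv ℝ (fderiv ℝ f) y a b) =ᶠ[𝓝 x]
      fun y => fderiv ℝ (fderiv ℝ f) y b a := by
    filter_upwards [hf.isOpen.mem_nhds hx] with y hy
    have hsym : IsSymmSndFDerivAt ℝ f y :=
      (hf.contDiffAt hy).isSymmSndFDerivAt (by simpa using two_le_top')
    exact hsym.eq a b
  have h4 := h1.unique (h2.congr_of_eventuallyEq h3)
  have h5 := congrArg (fun L : E →L[ℝ] F => L e) h4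
  simpa using h5

/-- The derivative of `Nf`. -/
theorem map_dNf (hf : IsLoc S O f) (hx : x ∈ O) {a b : E} (ha : fderiv ℝ f x a = 0)
    (hb : fderiv ℝ f x b = 0) (e : E) :
    fderiv ℝ f x (fderiv ℝ (Nf f a b) x e) =
      -(fderiv ℝ (fderiv ℝ (fderiv ℝ f)) x e a b
        + fderiv ℝ (fderiv ℝ f) x (IIf f x e a) b + fderiv ℝ (fderiv ℝ f) x a (IIf f x e b)
        + fderiv ℝ (fderiv ℝ f) x e (IIf f x a b)) := by
  have h1 := (hasF_df hf hx).clm_apply (hasF_Nf hf hx a b)
  have h2 := (((hasF_ddf hf hx).clm_apply (hasF_Pf hf hx a)).clm_apply (hasF_Pf hf hx b)).neg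
  have h3 : (fun y => fderiv ℝ f y (Nf f a b y)) =ᶠ[𝓝 x]
      fun y => -(fderiv ℝ (fderiv ℝ f) y (Pf f a y) (Pf f b y)) := by
    filter_upwards [hf.isOpen.mem_nhds hx] with y hy
    exact map_IIf hf hy _ _
  have h4 := h1.unique (h2.congr_of_eventuallyEq h3)
  have h5 := congrArg (fun L : E →L[ℝ] F => L e) h4
  simp only [ContinuousLinearMap.neg_apply, ContinuousLinearMap.add_apply,
    ContinuousLinearMap.comp_apply, ContinuousLinearMap.flip_apply] at h5
  have h6 : Nf f a b x = IIf f x a b := by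
    unfold Nf
    rw [Pf_eq ha, Pf_eq hb]
  rw [h6, dPf hf hx ha, dPf hf hx hb, Pf_eq ha, Pf_eq hb] at h5
  rw [eq_sub_of_add_eq h5]
  abel

/-- Codazzi: the normal part of the derivative of the second fundamental form is symmetric. -/
theorem codazzi (hf : IsLoc S O f) (hx : x ∈ O) {a b e : E} (ha : fderiv ℝ f x a = 0)
    (hb : fderiv ℝ f x b = 0) (he : fderiv ℝ f x e = 0) :
    fderiv ℝ f x (fderiv ℝ (Nf f a b) x e) = fderiv ℝ f x (fderiv ℝ (Nf f e b) x a) := by
  have hsym : IsSymmSndFDerivAt ℝ f x :=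
    (hf.contDiffAt hx).isSymmSndFDerivAt (by simpa using two_le_top')
  rw [map_dNf hf hx ha hb, map_dNf hf hx he hb, third_symm hf hx e a b, IIf_symm hf hx e a,
    hsym.eq a (IIf f x e b), hsym.eq e (IIf f x a b)]
  rw [hsym.eq (IIf f x e b) a, hsym.eq (IIf f x a b) e]
  abel

theorem Nf_symm (hf : IsLoc S O f) {y : E} (hy : y ∈ O) (a b : E) : Nf f a b y = Nf f b a y :=
  IIf_symm hf hy _ _

theorem dNf_symm (hf : IsLoc S O f) (hx : x ∈ O) (a b e : E) :
    fderiv ℝ (Nf f a b) x e = fderiv ℝ (Nf f b a) x e := by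
  have h3 : Nf f a b =ᶠ[𝓝 x] Nf f b a := by
    filter_upwards [hf.isOpen.mem_nhds hx] with y hy
    exact Nf_symm hf hy a b
  rw [h3.fderiv_eq]

/-- The derivative of the second fundamental form against a normal vector. -/
noncomputable def Cf (f : E → F) (x e a b c d : E) : ℝ :=
  ⟪fderiv ℝ (Nf f a b) x e, IIf f x c d⟫_ℝ

theorem inner_IIf_congr {y u v a b : E} (h : fderiv ℝ f y u = fderiv ℝ f y v) :
    ⟪u, IIf f y a b⟫_ℝ = ⟪v, IIf f y a b⟫_ℝ := by
  have h1 : ⟪IIf f y a b, u - v⟫_ℝ = 0 := inner_IIf (by rw [map_sub, h, sub_self])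
  rw [inner_sub_right, sub_eq_zero] at h1
  rw [real_inner_comm, h1, real_inner_comm]

theorem Cf_swap (hf : IsLoc S O f) (hx : x ∈ O) {a b e : E} (c d : E) (ha : fderiv ℝ f x a = 0)
    (hb : fderiv ℝ f x b = 0) (he : fderiv ℝ f x e = 0) :
    Cf f x e a b c d = Cf f x a e b c d :=
  inner_IIf_congr (codazzi hf hx ha hb he)

theorem Cf_symm (hf : IsLoc S O f) (hx : x ∈ O) (e a b c d : E) :
    Cf f x e a b c d = Cf f x e b a c d := by
  unfold Cf
  rw [dNf_symm hf hx]

theorem Cf_symm' (hf : IsLoc S O f) (hx : x ∈ O) (e a b c d : E) :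
    Cf f x e a b c d = Cf f x e a b d c := by
  unfold Cf
  rw [IIf_symm hf hx c d]

/-- The derivative of an inner product of two values of the second fundamental form. -/
theorem hasF_inner_Nf (hf : IsLoc S O f) (hx : x ∈ O) {a b c d : E} (ha : fderiv ℝ f x a = 0)
    (hb : fderiv ℝ f x b = 0) (hc : fderiv ℝ f x c = 0) (hd : fderiv ℝ f x d = 0) :
    ∃ L : E →L[ℝ] ℝ, HasFDerivAt (fun y => ⟪Nf f a b y, Nf f c d y⟫_ℝ) L x ∧
      ∀ e, L e = Cf f x e a b c d + Cf f x e c d a b := by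
  refine ⟨_, (hasF_Nf hf hx a b).inner ℝ (hasF_Nf hf hx c d), fun e => ?_⟩
  have h6 : Nf f a b x = IIf f x a b := by
    unfold Nf
    rw [Pf_eq ha, Pf_eq hb]
  have h7 : Nf f c d x = IIf f x c d := by
    unfold Nf
    rw [Pf_eq hc, Pf_eq hd]
  simp only [ContinuousLinearMap.comp_apply, ContinuousLinearMap.prod_apply,
    fderivInnerCLM_apply, h6, h7]
  unfold Cf
  rw [real_inner_comm (IIf f x a b)]
  ring

/-- The inner products of projected constant vectors have derivative zero. -/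
theorem hasF_inner_Pf (hf : IsLoc S O f) (hx : x ∈ O) {a b : E} (ha : fderiv ℝ f x a = 0)
    (hb : fderiv ℝ f x b = 0) :
    HasFDerivAt (fun y => ⟪Pf f a y, Pf f b y⟫_ℝ) (0 : E →L[ℝ] ℝ) x := by
  have h1 := (hasF_Pf hf hx a).inner ℝ (hasF_Pf hf hx b)
  have h2 : (fderivInnerCLM ℝ (Pf f a x, Pf f b x)).comp
      ((fderiv ℝ (Pf f a) x).prod (fderiv ℝ (Pf f b) x)) = 0 := by
    ext e
    simp only [ContinuousLinearMap.comp_apply, ContinuousLinearMap.prod_apply,
      fderivInnerCLM_apply, Pf_eq ha, Pf_eq hb, dPf hf hx ha, dPf hf hx hb,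
      ContinuousLinearMap.zero_apply]
    rw [inner_IIf hb, real_inner_comm, inner_IIf ha, add_zero]
  rw [h2] at h1
  exact h1

end Pool.Agent.H27.S7
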