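import Pool.Agent.H27.S7.IIf

/-!
# Schur's lemma

If the second fundamental form of `S` has the curvature of a space form, with factor `κ y` at
`y ∈ S`, then `κ` has derivative zero along curves in `S` (`dim S ≥ 3`).
-/

set_option autoImplicit false
set_option linter.unusedSectionVars false

open scoped InnerProductSpace Topology ContDiff
open Set Filter

namespace Pool.Agent.H27.S7

open Pool.Agent.H91.GE Pool.Agent.H59.LV Pool.Agent.H59.ND Pool.Agent.H59.Zar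

variable {E F : Type*} [NormedAddCommGroup E] [InnerProductSpace ℝ E] [FiniteDimensional ℝ E]
  [NormedAddCommGroup F] [InnerProductSpace ℝ F] [FiniteDimensional ℝ F]
  {S O : Set E} {f : E → F} {x : E}

/-- The curvature of `S` at `y` is constant, equal to `k` (polarised form). -/
def CC (f : E → F) (y : E) (k : ℝ) : Prop :=
  ∀ u v v' : E, fderiv ℝ f y u = 0 → fderiv ℝ f y v = 0 → fderiv ℝ f y v' = 0 →
    ⟪IIf f y u u, IIf f y v v'⟫_ℝ - ⟪IIf f y u v, IIf f y u v'⟫_ℝ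
      = k * (⟪u, u⟫_ℝ * ⟪v, v'⟫_ℝ - ⟪u, v⟫_ℝ * ⟪u, v'⟫_ℝ)

/-- The Gram function. -/
noncomputable def Gf (f : E → F) (u v v' y : E) : ℝ :=
  ⟪Pf f u y, Pf f u y⟫_ℝ * ⟪Pf f v y, Pf f v' y⟫_ℝ
    - ⟪Pf f u y, Pf f v y⟫_ℝ * ⟪Pf f u y, Pf f v' y⟫_ℝ

/-- The curvature function. -/
noncomputable def Rf (f : E → F) (u v v' y : E) : ℝ :=
  ⟪Nf f u u y, Nf f v v' y⟫_ℝ - ⟪Nf f u v y, Nf f u v' y⟫_ℝ

theorem CC.eq {k : ℝ} (hf : IsLoc S O f) {y : E} (hy : y ∈ O) (h : CC f y k) (u v v' : E) :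
    Rf f u v v' y = k * Gf f u v v' y :=
  h _ _ _ (map_Pf hf hy u) (map_Pf hf hy v) (map_Pf hf hy v')

theorem hasF_Gf (hf : IsLoc S O f) (hx : x ∈ O) {u v v' : E} (hu : fderiv ℝ f x u = 0)
    (hv : fderiv ℝ f x v = 0) (hv' : fderiv ℝ f x v' = 0) :
    HasFDerivAt (Gf f u v v') (0 : E →L[ℝ] ℝ) x := by
  have h1 := ((hasF_inner_Pf hf hx hu hu).mul (hasF_inner_Pf hf hx hv hv')).sub
    ((hasF_inner_Pf hf hx hu hv).mul (hasF_inner_Pf hf hx hu hv'))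
  have h2 : HasFDerivAt (Gf f u v v') _ x := h1
  simpa using h2

theorem hasF_Rf (hf : IsLoc S O f) (hx : x ∈ O) {u v v' : E} (hu : fderiv ℝ f x u = 0)
    (hv : fderiv ℝ f x v = 0) (hv' : fderiv ℝ f x v' = 0) :
    ∃ L : E →L[ℝ] ℝ, HasFDerivAt (Rf f u v v') L x ∧
      ∀ e, L e = Cf f x e u u v v' + Cf f x e v v' u u
        - (Cf f x e u v u v' + Cf f x e u v' u v) := by
  obtain ⟨L₁, h1, h1'⟩ := hasF_inner_Nf hf hx hu hu hv hv'
  obtain ⟨L₂, h2, h2'⟩ := hasF_inner_Nf hf hx hu hv hu hv'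
  refine ⟨L₁ - L₂, h1.sub h2, fun e => ?_⟩
  show L₁ e - L₂ e = _
  rw [h1', h2']

theorem smooth_Gf (hf : IsLoc S O f) (hx : x ∈ O) (u v v' : E) :
    ContDiffAt ℝ ∞ (Gf f u v v') x := by
  have hP := fun a => smooth_Pf hf hx a
  exact (((hP u).inner ℝ (hP u)).mul ((hP v).inner ℝ (hP v'))).sub
    (((hP u).inner ℝ (hP v)).mul ((hP u).inner ℝ (hP v')))

theorem smooth_Rf (hf : IsLoc S O f) (hx : x ∈ O) (u v v' : E) :
    ContDiffAt ℝ ∞ (Rf f u v v') x := by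
  have hN := fun a b => smooth_Nf hf hx a b
  exact ((hN u u).inner ℝ (hN v v')).sub ((hN u v).inner ℝ (hN u v'))

/-- Two smooth functions which agree on `S` near `x` have the same derivative on tangent
vectors. -/
theorem fderiv_congr_S (hf : IsLoc S O f) (hxS : x ∈ S) (hx : x ∈ O) {g g' : E → ℝ}
    (hg : ContDiffAt ℝ ∞ g x) (hg' : ContDiffAt ℝ ∞ g' x) (he : ∀ᶠ y in 𝓝[S] x, g y = g' y)
    {e : E} (hef : fderiv ℝ f x e = 0) : fderiv ℝ g x e = fderiv ℝ g' x e := by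
  have h0 : e ∈ ZT S x := (mem_TS' hf hxS hx).2 hef
  have h1 : ContDiffAt ℝ ∞ (fun y => g y - g' y) x := hg.sub hg'
  obtain ⟨c, hc, -, hcd, hcd0, hcx⟩ :
      ∃ c : ℝ → E, ContDiff ℝ 1 c ∧ True ∧ (∀ s, c s ∈ S) ∧ c 0 = x ∧ deriv c 0 = e := by
    obtain ⟨c, h1, h2, h3, h4⟩ := exists_curve hf hx hxS hef
    exact ⟨c, h1, trivial, h2, h3, h4⟩
  have hcd' : HasDerivAt c e 0 := by
    have := ((hc.differentiable (by simp)) 0).hasDerivAt
    rwa [hcx] at this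
  have h2 : HasFDerivAt g (fderiv ℝ g x) (c 0) := by
    rw [hcd0]; exact (hg.differentiableAt (by simp)).hasFDerivAt
  have h3 : HasFDerivAt g' (fderiv ℝ g' x) (c 0) := by
    rw [hcd0]; exact (hg'.differentiableAt (by simp)).hasFDerivAt
  have h4 : HasDerivAt (fun s => g (c s)) (fderiv ℝ g x e) 0 := h2.comp_hasDerivAt 0 hcd'
  have h5 : HasDerivAt (fun s => g' (c s)) (fderiv ℝ g' x e) 0 := h3.comp_hasDerivAt 0 hcd'
  have h6 : Tendsto c (𝓝 0) (𝓝[S] x) := by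
    refine tendsto_nhdsWithin_iff.2 ⟨?_, Eventually.of_forall hcd⟩
    have := hc.continuous.tendsto 0
    rwa [hcd0] at this
  exact h4.unique (h5.congr_of_eventuallyEq (h6.eventually he))

/-- The algebra of Schur's lemma. -/
theorem schur_alg (hf : IsLoc S O f) (hx : x ∈ O) {a b e : E} (ha : fderiv ℝ f x a = 0)
    (hb : fderiv ℝ f x b = 0) (he : fderiv ℝ f x e = 0) {d : ℝ}
    (h1 : Cf f x e a a b b + Cf f x e b b a a - (Cf f x e a b a b + Cf f x e a b a b) = d)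
    (h2 : Cf f x a b b a e + Cf f x a a e b b - (Cf f x a b a b e + Cf f x a b e b a) = 0)
    (h3 : Cf f x b a a b e + Cf f x b b e a a - (Cf f x b a b a e + Cf f x b a e a b) = 0) :
    d = 0 := by
  have e1 : Cf f x a a e b b = Cf f x e a a b b := by
    rw [Cf_symm hf hx a a e, Cf_swap hf hx _ _ he ha ha]
  have e2 : Cf f x b b e a a = Cf f x e b b a a := by
    rw [Cf_symm hf hx b b e, Cf_swap hf hx _ _ he hb hb]
  have e3 : Cf f x a b e b a = Cf f x e a b a b := by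
    rw [Cf_symm hf hx a b e, Cf_swap hf hx _ _ he hb ha, Cf_symm' hf hx e a b b a]
  have e4 : Cf f x b a e a b = Cf f x e a b a b := by
    rw [Cf_symm hf hx b a e, Cf_swap hf hx _ _ he ha hb, Cf_symm hf hx e b a]
  have e5 : Cf f x a b b a e = Cf f x b a b a e := Cf_swap hf hx _ _ hb hb ha
  have e6 : Cf f x a b a b e = Cf f x b a a b e := Cf_swap hf hx _ _ hb ha ha
  linarith

/-- Schur's lemma at a point. -/
theorem schur_local (hf : IsLoc S O f) (hxS : x ∈ S) (hx : x ∈ O) {κ : E → ℝ}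
    (hk : ∀ᶠ y in 𝓝[S] x, CC f y (κ y)) {a b e : E} (ha : fderiv ℝ f x a = 0)
    (hb : fderiv ℝ f x b = 0) (he : fderiv ℝ f x e = 0) (haa : ⟪a, a⟫_ℝ = 1)
    (hbb : ⟪b, b⟫_ℝ = 1) (hab : ⟪a, b⟫_ℝ = 0) (hae : ⟪a, e⟫_ℝ = 0) (hbe : ⟪b, e⟫_ℝ = 0) :
    ∃ k : E → ℝ, (∀ᶠ y in 𝓝[S] x, κ y = k y) ∧ ContDiffAt ℝ ∞ k x ∧ fderiv ℝ k x e = 0 := by
  set G := Gf f a b b with hG
  set k : E → ℝ := fun y => Rf f a b b y / G y with hkd
  have hG1 : G x = 1 := by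
    show ⟪Pf f a x, Pf f a x⟫_ℝ * ⟪Pf f b x, Pf f b x⟫_ℝ
      - ⟪Pf f a x, Pf f b x⟫_ℝ * ⟪Pf f a x, Pf f b x⟫_ℝ = 1
    rw [Pf_eq ha, Pf_eq hb, haa, hbb, hab]
    norm_num
  have hGs : ContDiffAt ℝ ∞ G x := smooth_Gf hf hx a b b
  have hG0 : ∀ᶠ y in 𝓝 x, G y ≠ 0 :=
    hGs.continuousAt.eventually_ne (by rw [hG1]; exact one_ne_zero)
  have hks : ContDiffAt ℝ ∞ k x :=
    (smooth_Rf hf hx a b b).div hGs (by rw [hG1]; exact one_ne_zero)
  have hO : ∀ᶠ y in 𝓝[S] x, y ∈ O := nhdsWithin_le_nhds (hf.isOpen.mem_nhds hx)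
  have hkk : ∀ᶠ y in 𝓝[S] x, κ y = k y := by
    filter_upwards [hk, hO, nhdsWithin_le_nhds hG0] with y h1 h2 h3
    show κ y = Rf f a b b y / G y
    rw [h1.eq hf h2, mul_div_assoc, div_self h3, mul_one]
  have hkd' : HasFDerivAt k (fderiv ℝ k x) x := (hks.differentiableAt (by simp)).hasFDerivAt
  refine ⟨k, hkk, hks, ?_⟩
  -- derivative of `k * Gf`
  have hkG : ∀ {u v v' : E}, fderiv ℝ f x u = 0 → fderiv ℝ f x v = 0 → fderiv ℝ f x v' = 0 →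
      ∀ g : E, fderiv ℝ (fun y => k y * Gf f u v v' y) x g = Gf f u v v' x * fderiv ℝ k x g := by
    intro u v v' hu hv hv' g
    have h1 := hkd'.mul (hasF_Gf hf hx hu hv hv')
    have h2 : HasFDerivAt (fun y => k y * Gf f u v v' y) _ x := h1
    rw [h2.fderiv]
    simp
  have hRG : ∀ {u v v' g : E}, fderiv ℝ f x u = 0 → fderiv ℝ f x v = 0 → fderiv ℝ f x v' = 0 →
      fderiv ℝ f x g = 0 → Cf f x g u u v v' + Cf f x g v v' u u
        - (Cf f x g u v u v' + Cf f x g u v' u v) = Gf f u v v' x * fderiv ℝ k x g := by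
    intro u v v' g hu hv hv' hg
    obtain ⟨L, hL, hL'⟩ := hasF_Rf hf hx hu hv hv'
    rw [← hL', ← hkG hu hv hv' g, ← hL.fderiv]
    refine fderiv_congr_S hf hxS hx (smooth_Rf hf hx u v v')
      (hks.mul (smooth_Gf hf hx u v v')) ?_ hg
    filter_upwards [hk, hO, hkk] with y h1 h2 h3
    rw [h1.eq hf h2, h3]
  have h1 := hRG ha hb hb he
  have h2 := hRG hb ha he ha
  have h3 := hRG ha hb he hb
  have g2 : Gf f b a e x = 0 := by
    show ⟪Pf f b x, Pf f b x⟫_ℝ * ⟪Pf f a x, Pf f e x⟫_ℝ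
      - ⟪Pf f b x, Pf f a x⟫_ℝ * ⟪Pf f b x, Pf f e x⟫_ℝ = 0
    rw [Pf_eq ha, Pf_eq hb, Pf_eq he, hae, hbe]
    ring
  have g3 : Gf f a b e x = 0 := by
    show ⟪Pf f a x, Pf f a x⟫_ℝ * ⟪Pf f b x, Pf f e x⟫_ℝ
      - ⟪Pf f a x, Pf f b x⟫_ℝ * ⟪Pf f a x, Pf f e x⟫_ℝ = 0
    rw [Pf_eq ha, Pf_eq hb, Pf_eq he, hae, hbe]
    ring
  have g1 : Gf f a b b x = 1 := hG1
  rw [g2, zero_mul] at h2
  rw [g3, zero_mul] at h3
  rw [g1, one_mul] at h1
  exact schur_alg hf hx ha hb he h1 h2 h3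

/-- Two orthonormal vectors orthogonal to a given vector in a space of dimension at least
three. -/
theorem exists_pair {T : Submodule ℝ E} (hT : 3 ≤ Module.finrank ℝ T) (e : E) :
    ∃ a ∈ T, ∃ b ∈ T, ⟪a, a⟫_ℝ = 1 ∧ ⟪b, b⟫_ℝ = 1 ∧ ⟪a, b⟫_ℝ = 0 ∧ ⟪a, e⟫_ℝ = 0 ∧
      ⟪b, e⟫_ℝ = 0 := by
  set W : Submodule ℝ E := T ⊓ (ℝ ∙ e)ᗮ with hW
  have h1 : 2 ≤ Module.finrank ℝ W := by
    have h2 := Submodule.finrank_add_finrank_orthogonal (ℝ ∙ e)
    have h3 : Module.finrank ℝ (ℝ ∙ e) ≤ 1 :=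
      (finrank_span_le_card ({e} : Set E)).trans (by simp)
    have h4 := Submodule.finrank_sup_add_finrank_inf_eq T (ℝ ∙ e)ᗮ
    have h5 : Module.finrank ℝ (T ⊔ (ℝ ∙ e)ᗮ : Submodule ℝ E) ≤ Module.finrank ℝ E :=
      Submodule.finrank_le _
    rw [hW]
    omega
  let β := stdOrthonormalBasis ℝ W
  have hβ := β.orthonormal
  let i : Fin (Module.finrank ℝ W) := ⟨0, by omega⟩
  let j : Fin (Module.finrank ℝ W) := ⟨1, by omega⟩
  have hij : i ≠ j := by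
    intro h
    have := congrArg Fin.val h
    simp [i, j] at this
  have hm : ∀ l, (β l : E) ∈ T ∧ ⟪(β l : E), e⟫_ℝ = 0 := by
    intro l
    refine ⟨(β l).2.1, ?_⟩
    have := (Submodule.mem_orthogonal_singleton_iff_inner_left).1 (β l).2.2
    exact this
  have hn : ∀ l, ⟪(β l : E), (β l : E)⟫_ℝ = 1 := by
    intro l
    rw [real_inner_self_eq_norm_sq]
    have : ‖(β l : E)‖ = 1 := hβ.1 l
    rw [this, one_pow]
  have ho : ⟪(β i : E), (β j : E)⟫_ℝ = 0 := hβ.2 hij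
  exact ⟨β i, (hm i).1, β j, (hm j).1, hn i, hn j, ho, (hm i).2, (hm j).2⟩

/-- **Schur's lemma.** -/
theorem schur {n : ℕ} (hdim : Module.finrank ℝ E = Module.finrank ℝ F + n) (hn : 3 ≤ n)
    (hsub : IsSub F S) {κ : E → ℝ}
    (hk : ∀ x ∈ S, ∃ (O : Set E) (f : E → F), IsLoc S O f ∧ x ∈ O ∧ ∀ y ∈ S, y ∈ O →
      CC f y (κ y))
    {γ : ℝ → E} (hγ : ∀ t, γ t ∈ S) {γ' : E} {t : ℝ} (hd : HasDerivAt γ γ' t) :
    HasDerivAt (fun t => κ (γ t)) 0 t := by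
  obtain ⟨O, f, hf, hO, hk'⟩ := hk (γ t) (hγ t)
  have hγ' : fderiv ℝ f (γ t) γ' = 0 := by
    have h1 : HasDerivAt (fun s => f (γ s)) (fderiv ℝ f (γ t) γ') t :=
      (((hf.contDiffAt hO).differentiableAt (by simp)).hasFDerivAt).comp_hasDerivAt t hd
    have h2 : (fun s => f (γ s)) =ᶠ[𝓝 t] fun _ => 0 := by
      filter_upwards [hd.continuousAt.preimage_mem_nhds (hf.isOpen.mem_nhds hO)] with s hs
      exact (hf.mem_iff hs).1 (hγ s)
    exact h1.unique ((hasDerivAt_const t (0 : F)).congr_of_eventuallyEq h2)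
  have hT : Module.finrank ℝ (ZT S (γ t)) = n := finrank_TS hdim hsub (hγ t)
  obtain ⟨a, ha, b, hb, haa, hbb, hab, hae, hbe⟩ :=
    exists_pair (T := ZT S (γ t)) (by rw [hT]; exact hn) γ'
  rw [mem_TS' hf (hγ t) hO] at ha hb
  have hev : ∀ᶠ y in 𝓝[S] (γ t), CC f y (κ y) := by
    filter_upwards [self_mem_nhdsWithin, nhdsWithin_le_nhds (hf.isOpen.mem_nhds hO)] with y h1 h2
    exact hk' y h1 h2
  obtain ⟨k, h1, h2, h3⟩ := schur_local hf (hγ t) hO hev ha hb hγ' haa hbb hab hae hbe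
  have h4 : HasDerivAt (fun s => k (γ s)) (fderiv ℝ k (γ t) γ') t :=
    ((h2.differentiableAt (by simp)).hasFDerivAt).comp_hasDerivAt t hd
  rw [h3] at h4
  refine h4.congr_of_eventuallyEq ?_
  have h5 : Tendsto γ (𝓝 t) (𝓝[S] (γ t)) :=
    tendsto_nhdsWithin_iff.2 ⟨hd.continuousAt, Eventually.of_forall hγ⟩
  exact h5.eventually h1

end Pool.Agent.H27.S7
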